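import Mathlib
import Pool.Agent.W2helper81.BY.Stm

/-!
Piece BEL1 of project BY: Belyi's first step over any field of characteristic zero.
-/

set_option autoImplicit false

namespace Pool.Agent.W2helper97.BY

open Polynomial Pool.Agent.W2helper81.BY

lemma exists_G {K : Type} [Field K] (F D : K[X]) (hD : D ≠ 0) :
    ∃ G : K[X], G ≠ 0 ∧ G.natDegree = D.natDegree ∧ D ∣ G.comp F := by
  let A := AdjoinRoot D
  have hfin : Module.Finite K A := (AdjoinRoot.powerBasis hD).finite
  have hfree : Module.Free K A := Module.Free.of_basis (AdjoinRoot.powerBasis hD).basis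
  let x : A := AdjoinRoot.mk D F
  let T : A →ₗ[K] A := Algebra.lmul K A x
  refine ⟨T.charpoly, T.charpoly_monic.ne_zero, ?_, ?_⟩
  · rw [LinearMap.charpoly_natDegree, (AdjoinRoot.powerBasis hD).finrank]
    rfl
  · have h1 : aeval T T.charpoly = 0 := LinearMap.aeval_self_charpoly T
    have h2 : aeval T T.charpoly = Algebra.lmul K A (aeval x T.charpoly) := by
      rw [Polynomial.aeval_algHom_apply]
    have h3 : aeval x T.charpoly = 0 := by
      have h4 := congrArg (fun S : A →ₗ[K] A => S 1) (h2.symm.trans h1)
      simpa using h4
    have h5 : aeval x T.charpoly = AdjoinRoot.mk D (T.charpoly.comp F) := by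
      rw [Polynomial.comp, Polynomial.hom_eval₂]
      rfl
    rw [h5] at h3
    exact AdjoinRoot.mk_eq_zero.mp h3

theorem BEL1_ok : P_BEL1 := by
  intro K L _ _ _ _ F hF
  induction hn : F.natDegree using Nat.strong_induction_on generalizing F with
  | _ n ih =>
    rcases Nat.eq_zero_or_pos n with h0 | h0
    · -- constant
      subst h0
      refine ⟨X, by simp, ?_, ?_⟩
      · intro z hz
        rw [eq_C_of_natDegree_eq_zero hn] at hz hF
        rw [aeval_C] at hz
        exfalso
        apply hF
        have := (map_eq_zero (algebraMap K L)).mp hz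
        rw [this, C_0]
      · intro z hz
        simp at hz
    · have hD : derivative F ≠ 0 := by
        intro h
        have := derivative_eq_zero.mp h
        omega
      obtain ⟨G, hG, hGd, hdvd⟩ := exists_G F (derivative F) hD
      have hlt : G.natDegree < n := by
        rw [hGd]
        have := natDegree_derivative_lt (p := F) (by omega)
        omega
      obtain ⟨β, hβ, hr, hc⟩ := ih G.natDegree hlt G hG rfl
      refine ⟨β.comp F, ?_, ?_, ?_⟩
      · rw [natDegree_comp]
        exact Nat.mul_pos hβ (by omega)
      · intro z hz
        refine ⟨β.eval 0, ?_⟩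
        rw [aeval_comp, hz, ← map_zero (algebraMap K L), aeval_algebraMap_apply]
        simp
      · intro z hz
        rw [derivative_comp, map_mul, mul_eq_zero] at hz
        rw [aeval_comp]
        rcases hz with hz | hz
        · apply hr
          obtain ⟨Q, hQ⟩ := hdvd
          rw [← aeval_comp, hQ, map_mul, hz, zero_mul]
        · apply hc
          rwa [aeval_comp] at hz

end Pool.Agent.W2helper97.BY
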